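import Pool.Agent.C4H6.Corank

/-!
# MP_039b14_co, Q1 in corank four

Among matroids of rank `n - 4` on `n` elements the answer to Q1 is negative: almost all of them
have an `M(G)`-minor.

For every `A`, `n ^ A` times the proportion of the isomorphism classes without an `M(G)`-minor among
all isomorphism classes of matroids of rank `n - 4` on `n` elements tends to zero. The same holds
for labelled matroids.
-/

set_option autoImplicit false

namespace Pool.Agent.Results.MP_039b14_co.CorankFour

open Filter Topology H38Pav Pool.Agent.C4H6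

/-- the number of isomorphism classes of matroids of rank `n - 4` on `n` elements -/
noncomputable def classes (n : ℕ) : ℕ := Nat.card {c : Cls n // RC4 c}

/-- the number of those classes of rank `n - 4` whose members have no `M(G)`-minor -/
noncomputable def classesNoMG (n : ℕ) : ℕ := Nat.card {c : Cls n // RC4 c ∧ ¬ c.HasMG}

/-- the number of matroids of rank `n - 4` with ground set `Fin n` -/
noncomputable def labelled (n : ℕ) : ℕ := Nat.card {M : Mat n // M.1.eRank + 4 = n}

/-- the number of matroids of rank `n - 4` with ground set `Fin n` which have no `M(G)`-minor -/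
noncomputable def labelledNoMG (n : ℕ) : ℕ :=
  Nat.card {M : Mat n // M.1.eRank + 4 = n ∧ ¬ HasMG M.1}

theorem tendsto_aux {a b : ℕ → ℕ}
    (h : ∀ A : ℕ, ∃ N : ℕ, ∀ n : ℕ, N ≤ n → n ^ A * a n ≤ b n) (A : ℕ) :
    Tendsto (fun n : ℕ => (n : ℝ) ^ A * ((a n : ℝ) / (b n : ℝ))) atTop (𝓝 0) := by
  obtain ⟨N, hN⟩ := h (A + 1)
  refine squeeze_zero' (Eventually.of_forall fun n => by positivity) ?_
    (tendsto_one_div_atTop_nhds_zero_nat (𝕜 := ℝ))
  filter_upwards [eventually_ge_atTop N, eventually_ge_atTop 1] with n hn h1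
  have hn0 : (0 : ℝ) < n := by exact_mod_cast h1
  have h2 : ((n : ℝ) ^ (A + 1)) * (a n : ℝ) ≤ (b n : ℝ) := by exact_mod_cast hN n hn
  rcases Nat.eq_zero_or_pos (b n) with hb | hb
  · rw [hb]; simp
  · have hb0 : (0 : ℝ) < b n := by exact_mod_cast hb
    rw [le_div_iff₀ hn0, mul_comm ((n : ℝ) ^ A), mul_assoc, ← pow_succ, div_mul_eq_mul_div,
      div_le_one hb0, mul_comm]
    exact h2

theorem result (A : ℕ) :
    ((∀ᶠ n in atTop, 0 < classes n) ∧
      Tendsto (fun n : ℕ => (n : ℝ) ^ A * ((classesNoMG n : ℝ) / (classes n : ℝ)))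
        atTop (𝓝 0)) ∧
    ((∀ᶠ n in atTop, 0 < labelled n) ∧
      Tendsto (fun n : ℕ => (n : ℝ) ^ A * ((labelledNoMG n : ℝ) / (labelled n : ℝ)))
        atTop (𝓝 0)) := by
  refine ⟨⟨?_, ?_⟩, ⟨?_, ?_⟩⟩
  · obtain ⟨N, hN⟩ := cls_corank 0
    filter_upwards [eventually_ge_atTop N] with n hn
    exact (hN n hn).1
  · refine tendsto_aux (fun A => ?_) A
    obtain ⟨N, hN⟩ := cls_corank A
    exact ⟨N, fun n hn => (hN n hn).2⟩
  · obtain ⟨N, hN⟩ := lab_corank 0
    filter_upwards [eventually_ge_atTop N] with n hn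
    exact (hN n hn).1
  · refine tendsto_aux (fun A => ?_) A
    obtain ⟨N, hN⟩ := lab_corank A
    exact ⟨N, fun n hn => (hN n hn).2⟩

end Pool.Agent.Results.MP_039b14_co.CorankFour
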