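import Pool.Agent.H38Pav.Main

/-!
MP_039b14_co. There are numbers `k n` of order at least `C(n, n/2) / (n log n)` such that
asymptotically almost no matroid with exactly `k n` nonbases has an `M(G)`-minor (isomorphism
classes, all ranks, uniform counting).
-/

namespace Pool.Agent.Results.MP_039b14_co.GivenNonbases

open Filter Topology H38Pav

theorem result : ∃ (δ : ℝ) (k : ℕ → ℕ), 0 < δ ∧
    (∀ᶠ n : ℕ in atTop, δ * n.choose (n / 2) / (n * Real.log n) ≤ k n) ∧
    (∀ᶠ n : ℕ in atTop, 0 < cnt n (k n) (fun _ => True)) ∧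
    Tendsto (fun n : ℕ => (cnt n (k n) Cls.HasMG : ℝ) / cnt n (k n) (fun _ => True))
      atTop (𝓝 0) := by
  choose k hk using fun n => exists_mode n (1 / 75)
  refine ⟨Real.log (1 + 1 / 75) / 4, k, ?_, ?_, ?_, ?_⟩
  · have : 0 < Real.log (1 + 1 / 75) := Real.log_pos (by norm_num)
    positivity
  · exact eventually_mode_large (1 / 75) (by norm_num) (by norm_num) k hk
  · filter_upwards [eventually_ge_atTop 2] with n hn
    have hW := wsum_pos (n := n) (1 / 75) (by norm_num) hn
    by_contra hcon
    have h0 : cnt n (k n) (fun _ => True) = 0 := by omega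
    have h1 := hk n
    rw [h0] at h1
    simp at h1
    linarith
  · exact tendsto_cnt_of k hk (fun _ => Cls.HasMG) (fun _ => nonPaving_of_hasMG)

end Pool.Agent.Results.MP_039b14_co.GivenNonbases
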