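import Pool.Agent.R4P.RpV

/-!
# MP_039b14_co, Q1 in rank four

Almost no matroid of rank four has an `M(G)`-minor.

For every `A`, `n ^ A` times the proportion of the isomorphism classes with an `M(G)`-minor among
all isomorphism classes of matroids of rank four on `n` elements tends to zero. The same holds for
labelled matroids, and for the proportion of the labelled matroids of rank four which have an
automorphism other than the identity.
-/

set_option autoImplicit false

namespace Pool.Agent.Results.MP_039b14_co.RankFour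

open Filter Topology H38Pav H83Pav Pool.Agent.R4P

/-- the number of isomorphism classes of matroids of rank four on `n` elements -/
noncomputable def m4 (n : ℕ) : ℕ := Nat.card {c : Cls n // R4 c}

/-- the number of those classes of rank four whose members have an `M(G)`-minor -/
noncomputable def h4 (n : ℕ) : ℕ := Nat.card {c : Cls n // R4 c ∧ c.HasMG}

/-- the number of matroids of rank four with ground set `Fin n` -/
noncomputable def labelled4 (n : ℕ) : ℕ := Nat.card {M : Mat n // M.1.eRank = 4}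

/-- the number of matroids of rank four with ground set `Fin n` which have an `M(G)`-minor -/
noncomputable def labelledMG4 (n : ℕ) : ℕ := Nat.card {M : Mat n // M.1.eRank = 4 ∧ HasMG M.1}

/-- the number of matroids of rank four with ground set `Fin n` which have an automorphism other
than the identity -/
noncomputable def symmetric4 (n : ℕ) : ℕ :=
  Nat.card {M : Mat n // M.1.eRank = 4 ∧
    ∃ σ : Equiv.Perm (Fin n), σ ≠ 1 ∧ ∀ B : Set (Fin n), M.1.IsBase B ↔ M.1.IsBase (σ '' B)}

theorem tendsto_aux {a b : ℕ → ℕ}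
    (h : ∀ A : ℕ, ∃ N : ℕ, ∀ n : ℕ, N ≤ n → n ^ A * a n ≤ b n) (A : ℕ) :
    Tendsto (fun n : ℕ => (n : ℝ) ^ A * ((a n : ℝ) / (b n : ℝ))) atTop (𝓝 0) := by
  obtain ⟨N, hN⟩ := h (A + 1)
  refine squeeze_zero' (Eventually.of_forall fun n => by positivity) ?_
    (tendsto_one_div_atTop_nhds_zero_nat (𝕜 := ℝ))
  filter_upwards [eventually_ge_atTop N, eventually_ge_atTop 1] with n hn h1
  have hn0 : (0 : ℝ) < n := by exact_mod_cast h1
  have h2 : ((n : ℝ) ^ (A + 1)) * (a n : ℝ) ≤ (b n : ℝ) := by exact_mod_cast hN n hn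
  rcases Nat.eq_zero_or_pos (b n) with hb | hb
  · rw [hb]; simp
  · have hb0 : (0 : ℝ) < b n := by exact_mod_cast hb
    rw [le_div_iff₀ hn0, mul_comm ((n : ℝ) ^ A), mul_assoc, ← pow_succ, div_mul_eq_mul_div,
      div_le_one hb0, mul_comm]
    exact h2

/-- the permutations of the ground set which fix `M` under the action on matroids are the
automorphisms of `M` -/
theorem act_eq_of {n : ℕ} (σ : Equiv.Perm (Fin n)) (M : Mat n)
    (h : ∀ B : Set (Fin n), M.1.IsBase B ↔ M.1.IsBase (σ '' B)) : act σ M = M := by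
  apply Subtype.ext
  refine Matroid.ext_isBase (by rw [(act σ M).2, M.2]) (fun B _ => ?_)
  have hB : σ '' (σ.symm '' B) = B := Equiv.image_symm_image σ B
  have h3 := act_isBase σ M (σ.symm '' B)
  rw [hB] at h3
  rw [h3, h (σ.symm '' B), hB]

theorem symmetric4_le (n : ℕ) : symmetric4 n ≤
    ∑ σ ∈ (Finset.univ : Finset (Equiv.Perm (Fin n))).erase 1,
      Nat.card {M : Mat n // M.1.eRank = 4 ∧ act σ M = M} := by
  classical
  unfold symmetric4
  have : ∑ σ ∈ (Finset.univ : Finset (Equiv.Perm (Fin n))).erase 1,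
      Nat.card {M : Mat n // M.1.eRank = 4 ∧ act σ M = M} =
      Nat.card (Σ σ : ((Finset.univ : Finset (Equiv.Perm (Fin n))).erase 1),
        {M : Mat n // M.1.eRank = 4 ∧ act σ.1 M = M}) := by
    rw [Nat.card_sigma, ← Finset.sum_coe_sort]
  rw [this]
  have hex : ∀ M : {M : Mat n // M.1.eRank = 4 ∧
      ∃ σ : Equiv.Perm (Fin n), σ ≠ 1 ∧ ∀ B : Set (Fin n), M.1.IsBase B ↔ M.1.IsBase (σ '' B)},
      ∃ σ : ((Finset.univ : Finset (Equiv.Perm (Fin n))).erase 1), act σ.1 M.1 = M.1 := by
    rintro ⟨M, h4, σ, h1, h2⟩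
    exact ⟨⟨σ, by simp [h1]⟩, act_eq_of σ M h2⟩
  choose t ht using hex
  refine Nat.card_le_card_of_injective (fun M => ⟨t M, M.1, M.2.1, ht M⟩) ?_
  intro M M' h
  simp only [Sigma.mk.injEq] at h
  obtain ⟨h1, h2⟩ := h
  apply Subtype.ext
  have key : ∀ (s s' : ((Finset.univ : Finset (Equiv.Perm (Fin n))).erase 1)) (hs : s = s')
      (x : {M : Mat n // M.1.eRank = 4 ∧ act s.1 M = M})
      (y : {M : Mat n // M.1.eRank = 4 ∧ act s'.1 M = M}), HEq x y → x.1 = y.1 := by
    rintro s s' rfl x y hxy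
    rw [eq_of_heq hxy]
  exact key _ _ h1 _ _ h2

theorem result (A : ℕ) :
    ((∀ᶠ n in atTop, 0 < m4 n) ∧
      Tendsto (fun n : ℕ => (n : ℝ) ^ A * ((h4 n : ℝ) / (m4 n : ℝ))) atTop (𝓝 0)) ∧
    ((∀ᶠ n in atTop, 0 < labelled4 n) ∧
      Tendsto (fun n : ℕ => (n : ℝ) ^ A * ((labelledMG4 n : ℝ) / (labelled4 n : ℝ)))
        atTop (𝓝 0)) ∧
    Tendsto (fun n : ℕ => (n : ℝ) ^ A * ((symmetric4 n : ℝ) / (labelled4 n : ℝ)))
      atTop (𝓝 0) := by
  refine ⟨⟨?_, ?_⟩, ⟨?_, ?_⟩, ?_⟩
  · obtain ⟨N, hN⟩ := final_cls 0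
    filter_upwards [eventually_ge_atTop N] with n hn
    exact (hN n hn).1
  · refine tendsto_aux (fun A => ?_) A
    obtain ⟨N, hN⟩ := final_cls A
    exact ⟨N, fun n hn => (hN n hn).2⟩
  · filter_upwards [eventually_ge_atTop 5] with n hn
    refine lt_of_lt_of_le ?_ (fams_le hn)
    refine Finset.card_pos.mpr ⟨∅, ?_⟩
    simp [fams, IsFam]
  · exact tendsto_aux (fun A => final A) A
  · refine tendsto_aux (fun A => ?_) A
    obtain ⟨N, hN⟩ := asym A
    refine ⟨max N 5, fun n hn => ?_⟩
    exact (Nat.mul_le_mul_left _ (symmetric4_le n)).trans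
      ((hN n ((le_max_left _ _).trans hn)).trans (fams_le ((le_max_right _ _).trans hn)))

end Pool.Agent.Results.MP_039b14_co.RankFour
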